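import Pool.Agent.Q99.CT.Basic

/-!
# Sums of characters over sets of homomorphisms
-/

set_option autoImplicit false
set_option linter.style.haveILetI false
set_option linter.unusedSectionVars false

open scoped BigOperators Classical

noncomputable section

namespace Pool.Agent.Q99.WM

variable {F G : Type} [Group F] [Group G] [Fintype G]

section ext

variable (π : F →* Multiplicative ℤ) (t : F) (ht : π t = Multiplicative.ofAdd 1)

/-- The integer attached to `u`. -/
def ex (u : F) : ℤ := (π u).toAdd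

variable {π t}

theorem ex_mul (u v : F) : ex π (u * v) = ex π u + ex π v := by
  unfold ex
  rw [map_mul]; rfl

include ht in
theorem ex_t : ex π t = 1 := by
  unfold ex
  rw [ht]; rfl

include ht in
theorem ex_zpow (k : ℤ) : ex π (t ^ k) = k := by
  unfold ex
  rw [map_zpow, ht]
  change (k : ℤ) * 1 = k
  rw [mul_one]

theorem ex_one : ex π (1 : F) = 0 := by
  unfold ex
  rw [map_one]; rfl

/-- conjugation by `y = ψ(t) c` and by `ψ(t)` agree on the image of the kernel -/
theorem conj_key {ψ : F →* G} {c : G} (hc : ∀ u, ex π u = 0 → c * ψ u = ψ u * c) (k : ℤ) :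
    ∀ l, ex π l = 0 → (ψ t * c) ^ k * ψ l = ψ (t ^ k * l * (t ^ k)⁻¹) * (ψ t * c) ^ k := by
  have hker : ∀ (s l : F), ex π l = 0 → ex π (s * l * s⁻¹) = 0 := by
    intro s l hl
    rw [ex_mul, ex_mul, hl, add_zero, ← ex_mul, mul_inv_cancel, ex_one]
  have h1 : ∀ l, ex π l = 0 → (ψ t * c) * ψ l = ψ (t * l * t⁻¹) * (ψ t * c) := by
    intro l hl
    rw [map_mul, map_mul, map_inv, mul_assoc, hc l hl]
    group
  have h2 : ∀ l, ex π l = 0 → (ψ t * c)⁻¹ * ψ l = ψ (t⁻¹ * l * t) * (ψ t * c)⁻¹ := by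
    intro l hl
    have hl' : ex π (t⁻¹ * l * t) = 0 := by
      have := hker t⁻¹ l hl
      rwa [inv_inv] at this
    have h3 := h1 (t⁻¹ * l * t) hl'
    have e : t * (t⁻¹ * l * t) * t⁻¹ = l := by group
    rw [e] at h3
    rw [inv_mul_eq_iff_eq_mul, ← mul_assoc, h3, mul_assoc, mul_inv_cancel, mul_one]
  induction k with
  | zero =>
    intro l _
    simp
  | succ k ih =>
    intro l hl
    rw [zpow_add_one, mul_assoc, h1 l hl, ← mul_assoc, ih _ (hker t l hl), mul_assoc,
      ← zpow_add_one]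
    congr 2
    rw [zpow_add_one]
    group
  | pred k ih =>
    intro l hl
    have hl' : ex π (t⁻¹ * l * t) = 0 := by
      have := hker t⁻¹ l hl
      rwa [inv_inv] at this
    rw [zpow_sub_one, mul_assoc, h2 l hl, ← mul_assoc, ih _ hl', mul_assoc, ← zpow_sub_one]
    congr 2
    rw [zpow_sub_one]
    group

/-- The modified homomorphism. -/
def twist (ht : π t = Multiplicative.ofAdd 1) (ψ : F →* G) (c : G)
    (hc : ∀ u, ex π u = 0 → c * ψ u = ψ u * c) : F →* G where
  toFun u := ψ (u * (t ^ ex π u)⁻¹) * (ψ t * c) ^ ex π u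
  map_one' := by
    rw [ex_one]; simp
  map_mul' u v := by
    have hl : ex π (v * (t ^ ex π v)⁻¹) = 0 := by
      have h1 : ex π (v * (t ^ ex π v)⁻¹) + ex π (t ^ ex π v) = ex π v := by
        rw [← ex_mul, inv_mul_cancel_right]
      rw [ex_zpow ht] at h1
      omega
    have h2 := conj_key (π := π) (t := t) hc (ex π u) _ hl
    calc ψ (u * v * (t ^ ex π (u * v))⁻¹) * (ψ t * c) ^ ex π (u * v) =
        ψ (u * (t ^ ex π u)⁻¹) * (ψ (t ^ ex π u * (v * (t ^ ex π v)⁻¹) * (t ^ ex π u)⁻¹) *
          (ψ t * c) ^ ex π u) * (ψ t * c) ^ ex π v := by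
          rw [ex_mul, zpow_add (ψ t * c), ← mul_assoc, ← mul_assoc, ← mul_assoc, ← map_mul]
          congr 3
          rw [zpow_add]
          group
      _ = _ := by rw [← h2]; group

theorem twist_ker {ψ : F →* G} {c : G} {hc : ∀ u, ex π u = 0 → c * ψ u = ψ u * c} {u : F}
    (hu : ex π u = 0) : twist ht ψ c hc u = ψ u := by
  change ψ (u * (t ^ ex π u)⁻¹) * (ψ t * c) ^ ex π u = ψ u
  rw [hu]; simp

theorem twist_t {ψ : F →* G} {c : G} {hc : ∀ u, ex π u = 0 → c * ψ u = ψ u * c} :
    twist ht ψ c hc t = ψ t * c := by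
  change ψ (t * (t ^ ex π t)⁻¹) * (ψ t * c) ^ ex π t = ψ t * c
  rw [ex_t ht]; simp

include ht in
theorem eq_of_agree {ψ ψ' : F →* G} (h1 : ∀ u, ex π u = 0 → ψ u = ψ' u) (h2 : ψ t = ψ' t) :
    ψ = ψ' := by
  ext u
  have hl : ex π (u * (t ^ ex π u)⁻¹) = 0 := by
    have h1 : ex π (u * (t ^ ex π u)⁻¹) + ex π (t ^ ex π u) = ex π u := by
      rw [← ex_mul, inv_mul_cancel_right]
    rw [ex_zpow ht] at h1
    omega
  have e : u = (u * (t ^ ex π u)⁻¹) * t ^ ex π u := by rw [inv_mul_cancel_right]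
  rw [e, map_mul ψ (u * (t ^ ex π u)⁻¹), map_mul ψ' (u * (t ^ ex π u)⁻¹), h1 _ hl, map_zpow,
    map_zpow, h2]

variable [Fintype (F →* G)]

/-- The centralizer of the image of the kernel. -/
def CC (π : F →* Multiplicative ℤ) (ψ : F →* G) : Finset G :=
  Finset.univ.filter fun c => ∀ u, ex π u = 0 → c * ψ u = ψ u * c

theorem mem_CC {ψ : F →* G} {c : G} : c ∈ CC π ψ ↔ ∀ u, ex π u = 0 → c * ψ u = ψ u * c := by
  simp [CC]

include ht in
theorem card_agree (ψ : F →* G) :
    (Finset.univ.filter fun ψ' : F →* G => ∀ u, ex π u = 0 → ψ' u = ψ u).card = (CC π ψ).card := by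
  symm
  apply Finset.card_bij (fun c hc => twist ht ψ c (mem_CC.mp hc))
  · intro c hc
    rw [Finset.mem_filter]
    exact ⟨Finset.mem_univ _, fun u hu => twist_ker ht hu⟩
  · intro c hc d hd h
    have := DFunLike.congr_fun h t
    rw [twist_t, twist_t] at this
    exact mul_left_cancel this
  · intro ψ' h
    rw [Finset.mem_filter] at h
    have hc : (ψ t)⁻¹ * ψ' t ∈ CC π ψ := by
      rw [mem_CC]
      intro u hu
      have hker : ex π (t * u * t⁻¹) = 0 := by
        rw [ex_mul, ex_mul, hu, add_zero, ← ex_mul, mul_inv_cancel, ex_one]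
      have h1 := h.2 _ hker
      rw [map_mul, map_mul, map_mul, map_mul, map_inv, map_inv, h.2 u hu] at h1
      have h2 : ψ' t * ψ u = ψ t * ψ u * (ψ t)⁻¹ * ψ' t := by
        rw [← h1, inv_mul_cancel_right]
      rw [mul_assoc, h2]
      group
    refine ⟨_, hc, ?_⟩
    apply eq_of_agree ht
    · intro u hu
      rw [twist_ker ht hu, h.2 u hu]
    · rw [twist_t]
      group

/-- conjugation of a homomorphism -/
def cj (g : G) (ψ : F →* G) : F →* G := (MulAut.conj g).toMonoidHom.comp ψ

theorem cj_apply (g : G) (ψ : F →* G) (u : F) : cj g ψ u = g * ψ u * g⁻¹ := rfl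

theorem card_CC_cj (g : G) (ψ : F →* G) : (CC π (cj g ψ)).card = (CC π ψ).card := by
  apply Finset.card_bij (fun c _ => g⁻¹ * c * g)
  · intro c hc
    rw [mem_CC] at hc ⊢
    intro u hu
    have h1 := hc u hu
    rw [cj_apply] at h1
    have h2 : g⁻¹ * c * g * ψ u = g⁻¹ * (c * (g * ψ u * g⁻¹)) * g := by group
    rw [h2, h1]
    group
  · intro c _ d _ h
    exact mul_left_cancel (mul_right_cancel h)
  · intro c hc
    refine ⟨g * c * g⁻¹, ?_, by group⟩
    rw [mem_CC] at hc ⊢
    intro u hu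
    rw [cj_apply]
    have h2 : g * c * g⁻¹ * (g * ψ u * g⁻¹) = g * (c * ψ u) * g⁻¹ := by group
    rw [h2, hc u hu]
    group

/-- The relation of being conjugate on the kernel. -/
def RR (π : F →* Multiplicative ℤ) (ψ ψ' : F →* G) : Prop :=
  ∃ g : G, ∀ u, ex π u = 0 → ψ' u = g * ψ u * g⁻¹

/-- The setoid. -/
def stR (π : F →* Multiplicative ℤ) : Setoid (F →* G) where
  r := RR π
  iseqv :=
    { refl := fun ψ => ⟨1, fun u _ => by simp⟩
      symm := by
        rintro ψ ψ' ⟨g, h⟩
        exact ⟨g⁻¹, fun u hu => by rw [h u hu]; group⟩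
      trans := by
        rintro ψ ψ' ψ'' ⟨g, h⟩ ⟨g', h'⟩
        exact ⟨g' * g, fun u hu => by rw [h' u hu, h u hu]; group⟩ }

include ht in
/-- The classes have `|G|` elements. -/
theorem card_class (ψ : F →* G) :
    (Finset.univ.filter fun ψ' : F →* G => RR π ψ ψ').card = Fintype.card G := by
  have h1 : ∀ g : G, ∑ ψ' : F →* G, (if ∀ u, ex π u = 0 → ψ' u = g * ψ u * g⁻¹ then 1 else 0) =
      (CC π ψ).card := by
    intro g
    rw [← card_CC_cj g ψ, ← card_agree ht (cj g ψ), Finset.card_filter]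
    rfl
  have h2 : ∀ ψ' : F →* G, ∑ g : G, (if ∀ u, ex π u = 0 → ψ' u = g * ψ u * g⁻¹ then 1 else 0) =
      if RR π ψ ψ' then (CC π ψ).card else 0 := by
    intro ψ'
    split_ifs with h
    · obtain ⟨g₀, hg₀⟩ := h
      rw [← Finset.card_filter]
      symm
      apply Finset.card_bij (fun c _ => g₀ * c)
      · intro c hc
        rw [mem_CC] at hc
        rw [Finset.mem_filter]
        refine ⟨Finset.mem_univ _, fun u hu => ?_⟩
        rw [hg₀ u hu]
        have : g₀ * c * ψ u * (g₀ * c)⁻¹ = g₀ * (c * ψ u) * c⁻¹ * g₀⁻¹ := by group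
        rw [this, hc u hu]
        group
      · intro c _ d _ h
        exact mul_left_cancel h
      · intro g hg
        rw [Finset.mem_filter] at hg
        refine ⟨g₀⁻¹ * g, ?_, by group⟩
        rw [mem_CC]
        intro u hu
        have h3 := hg.2 u hu
        rw [hg₀ u hu] at h3
        have h4 : g * ψ u = g₀ * ψ u * g₀⁻¹ * g := by rw [h3]; group
        rw [mul_assoc, h4]
        group
    · apply Finset.sum_eq_zero
      intro g _
      rw [if_neg]
      intro h'
      exact h ⟨g, h'⟩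
  have h3 : ∑ g : G, ∑ ψ' : F →* G, (if ∀ u, ex π u = 0 → ψ' u = g * ψ u * g⁻¹ then 1 else 0) =
      ∑ ψ' : F →* G, ∑ g : G, (if ∀ u, ex π u = 0 → ψ' u = g * ψ u * g⁻¹ then 1 else 0) :=
    Finset.sum_comm
  rw [Finset.sum_congr rfl fun g _ => h1 g, Finset.sum_congr rfl fun ψ' _ => h2 ψ',
    Finset.sum_const, Finset.card_univ, smul_eq_mul, ← Finset.sum_filter, Finset.sum_const,
    smul_eq_mul] at h3
  have hpos : 0 < (CC π ψ).card := Finset.card_pos.mpr ⟨1, by rw [mem_CC]; intro u _; simp⟩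
  exact (Nat.eq_of_mul_eq_mul_right hpos h3).symm

include ht in
/-- The normalised sum of the values of a class function with integral values over all the
homomorphisms, at an element of the kernel of a surjection on the integers, is integral. -/
theorem hom_integral (w : F) (hw : ex π w = 0) (χ : G → ℂ) (hcl : ∀ g y, χ (y * g * y⁻¹) = χ g)
    (hint : ∀ g, IsIntegral ℤ (χ g)) :
    IsIntegral ℤ ((Fintype.card G : ℂ)⁻¹ * ∑ ψ : F →* G, χ (ψ w)) := by
  haveI : Fintype (Quotient (stR (G := G) π)) := Fintype.ofFinite _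
  have h1 : ∑ ψ : F →* G, χ (ψ w) = (Fintype.card G : ℂ) *
      ∑ q : Quotient (stR (G := G) π), χ (q.out w) := by
    rw [← Finset.sum_fiberwise Finset.univ (fun ψ : F →* G => (Quotient.mk (stR π) ψ)),
      Finset.mul_sum]
    refine Finset.sum_congr rfl fun q _ => ?_
    have h2 : ∀ ψ ∈ Finset.univ.filter (fun ψ : F →* G => Quotient.mk (stR π) ψ = q),
        χ (ψ w) = χ (q.out w) := by
      intro ψ hψ
      rw [Finset.mem_filter] at hψ
      have h3 : RR π ψ q.out := by
        have h4 : Quotient.mk (stR π) ψ = Quotient.mk (stR π) q.out := by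
          rw [Quotient.out_eq]; exact hψ.2
        exact Quotient.exact h4
      obtain ⟨g, hg⟩ := h3
      rw [hg w hw, hcl]
    rw [Finset.sum_congr rfl h2, Finset.sum_const, nsmul_eq_mul]
    congr 2
    rw [← card_class (π := π) ht q.out]
    congr 1
    ext ψ
    rw [Finset.mem_filter, Finset.mem_filter]
    refine and_congr_right fun _ => ?_
    constructor
    · intro h
      have h4 : Quotient.mk (stR π) q.out = Quotient.mk (stR π) ψ := by
        rw [Quotient.out_eq]; exact h.symm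
      exact Quotient.exact h4
    · intro h
      have h4 : Quotient.mk (stR π) q.out = Quotient.mk (stR π) ψ := Quotient.sound h
      rw [Quotient.out_eq] at h4
      exact h4.symm
  rw [h1, ← mul_assoc, inv_mul_cancel₀ (by exact_mod_cast Fintype.card_ne_zero), one_mul]
  exact IsIntegral.sum _ fun q _ => hint _

end ext

end Pool.Agent.Q99.WM
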