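import Pool.Agent.Q99.CT.Basic

/-!
# The higher Frobenius-Schur indicators are algebraic integers
-/

set_option autoImplicit false
set_option linter.style.haveILetI false

open scoped BigOperators

noncomputable section

namespace Pool.Agent.Q99.WM

/-- The trace of an operator `f` with `f ^ a = f ^ b`, `b < a`, is an algebraic integer. -/
theorem trace_integral {V : Type} [AddCommGroup V] [Module ℂ V] [FiniteDimensional ℂ V]
    (f : Module.End ℂ V) {a b : ℕ} (hab : b < a) (h : f ^ a = f ^ b) :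
    IsIntegral ℤ (LinearMap.trace ℂ V f) := by
  rw [Module.End.trace_eq_sum_roots_charpoly_of_splits (IsAlgClosed.splits _)]
  have key : ∀ μ ∈ (LinearMap.charpoly f).roots, IsIntegral ℤ μ := by
    intro μ hμ
    have h1 : (LinearMap.charpoly f).IsRoot μ := (Polynomial.mem_roots'.mp hμ).2
    have h2 := (Module.End.hasEigenvalue_iff_isRoot_charpoly f μ).mpr h1
    obtain ⟨v, hv⟩ := h2.exists_hasEigenvector
    have h3 : ∀ n : ℕ, (f ^ n) v = μ ^ n • v := fun n => by
      induction n with
      | zero => simp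
      | succ n ih =>
        rw [pow_succ', Module.End.mul_apply, ih, map_smul, hv.apply_eq_smul, smul_smul, pow_succ]
    have h4 : μ ^ a = μ ^ b := by
      have h5 := h3 a
      rw [h, h3 b] at h5
      have h6 : (μ ^ b - μ ^ a) • v = 0 := by rw [sub_smul, h5, sub_self]
      rcases smul_eq_zero.mp h6 with h7 | h7
      · exact (sub_eq_zero.mp h7).symm
      · exact absurd h7 hv.2
    refine ⟨Polynomial.X ^ a - Polynomial.X ^ b, ?_, ?_⟩
    · apply Polynomial.monic_X_pow_sub
      rw [Polynomial.degree_X_pow]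
      exact_mod_cast hab
    · simp [h4]
  generalize (LinearMap.charpoly f).roots = s at key
  induction s using Multiset.induction_on with
  | empty => simpa using isIntegral_zero
  | cons a s ih =>
    rw [Multiset.sum_cons]
    exact (key a (Multiset.mem_cons_self a s)).add
      (ih (fun μ hμ => key μ (Multiset.mem_cons_of_mem hμ)))

section mat

variable {ι : Type} [Fintype ι] [DecidableEq ι]

/-- Entries of powers as sums over paths. -/
theorem path_sum (A : Matrix ι ι ℂ) (k : ℕ) : ∀ φ : ι → ι → ℂ,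
    ∑ h : Fin (k + 1) → ι, (∏ i : Fin k, A (h i.castSucc) (h i.succ)) * φ (h 0) (h (Fin.last k)) =
      ∑ a, ∑ b, (A ^ k) a b * φ a b := by
  induction k with
  | zero =>
    intro φ
    simp only [Finset.univ_eq_empty, Finset.prod_empty, one_mul, pow_zero, Matrix.one_apply,
      ite_mul, zero_mul, Finset.sum_ite_eq, Finset.mem_univ, if_true]
    exact Fintype.sum_equiv (Equiv.funUnique (Fin 1) ι) _ _ fun h => rfl
  | succ k ih =>
    intro φ
    have h1 := ih fun a b => ∑ c, A c a * φ c b
    have h2 : ∑ h : Fin (k + 1 + 1) → ι, (∏ i : Fin (k + 1), A (h i.castSucc) (h i.succ)) *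
        φ (h 0) (h (Fin.last (k + 1))) =
        ∑ h : Fin (k + 1) → ι, (∏ i : Fin k, A (h i.castSucc) (h i.succ)) *
          ∑ c, A c (h 0) * φ c (h (Fin.last k)) := by
      rw [← Fintype.sum_equiv (Fin.consEquiv (fun _ => ι)) (fun x =>
        (∏ i : Fin (k + 1), A ((Fin.consEquiv (fun _ => ι) x) i.castSucc)
          ((Fin.consEquiv (fun _ => ι) x) i.succ)) *
        φ ((Fin.consEquiv (fun _ => ι) x) 0) ((Fin.consEquiv (fun _ => ι) x) (Fin.last (k + 1)))) _
        (fun _ => rfl), Fintype.sum_prod_type, Finset.sum_comm]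
      refine Finset.sum_congr rfl fun h _ => ?_
      rw [Finset.mul_sum]
      refine Finset.sum_congr rfl fun c _ => ?_
      have e0 : (Fin.consEquiv (fun _ => ι) (c, h)) 0 = c := rfl
      have e1 : ∀ i : Fin (k + 1), (Fin.consEquiv (fun _ => ι) (c, h)) i.succ = h i := fun i => rfl
      have e2 : (Fin.consEquiv (fun _ => ι) (c, h)) (Fin.last (k + 1)) = h (Fin.last k) := rfl
      rw [Fin.prod_univ_succ, e0, e2, e1]
      have e3 : (Fin.consEquiv (fun _ => ι) (c, h)) (Fin.castSucc 0) = c := rfl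
      rw [e3]
      have e4 : ∏ i : Fin k, A ((Fin.consEquiv (fun _ => ι) (c, h)) i.succ.castSucc)
          ((Fin.consEquiv (fun _ => ι) (c, h)) i.succ.succ) =
          ∏ i : Fin k, A (h i.castSucc) (h i.succ) := by
        refine Finset.prod_congr rfl fun i _ => ?_
        rw [e1, ← Fin.succ_castSucc, e1]
      rw [e4]
      ring
    rw [h2, h1]
    simp only [Finset.mul_sum]
    rw [Finset.sum_congr rfl fun a _ => Finset.sum_comm, Finset.sum_comm]
    refine Finset.sum_congr rfl fun c _ => ?_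
    rw [Finset.sum_comm]
    refine Finset.sum_congr rfl fun b _ => ?_
    rw [pow_succ', Matrix.mul_apply, Finset.sum_mul]
    refine Finset.sum_congr rfl fun a _ => ?_
    ring

/-- The tensor power of a matrix. -/
def TT (n : ℕ) (A : Matrix ι ι ℂ) : Matrix (Fin n → ι) (Fin n → ι) ℂ :=
  fun f h => ∏ i, A (f i) (h i)

theorem TT_mul (n : ℕ) (A B : Matrix ι ι ℂ) : TT n (A * B) = TT n A * TT n B := by
  ext f h
  rw [Matrix.mul_apply]
  unfold TT
  simp only [Matrix.mul_apply]
  rw [Finset.prod_univ_sum, Fintype.piFinset_univ]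
  refine Finset.sum_congr rfl fun k _ => ?_
  rw [Finset.prod_mul_distrib]

/-- The cyclic shift matrix. -/
def PP (ι : Type) [Fintype ι] [DecidableEq ι] (k : ℕ) :
    Matrix (Fin (k + 1) → ι) (Fin (k + 1) → ι) ℂ :=
  fun f h => if f = (fun i => h (i + 1)) then 1 else 0

theorem TT_PP (k : ℕ) (A : Matrix ι ι ℂ) : TT (k + 1) A * PP ι k = PP ι k * TT (k + 1) A := by
  ext f h
  rw [Matrix.mul_apply, Matrix.mul_apply]
  unfold PP TT
  simp only [mul_ite, mul_one, mul_zero, ite_mul, one_mul, zero_mul]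
  rw [Finset.sum_ite_eq']
  rw [if_pos (Finset.mem_univ _)]
  rw [Finset.sum_eq_single (fun i => f (i - 1))]
  · rw [if_pos]
    · exact Fintype.prod_equiv (Equiv.addRight 1) _ _ fun i => by simp
    · funext i; simp
  · intro g _ hg
    rw [if_neg]
    intro e
    apply hg
    funext i
    rw [e]
    simp
  · intro h; exact absurd (Finset.mem_univ _) h

/-- The powers of the shift matrix. -/
def PJ (ι : Type) [Fintype ι] [DecidableEq ι] (k j : ℕ) :
    Matrix (Fin (k + 1) → ι) (Fin (k + 1) → ι) ℂ :=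
  fun f h => if f = (fun i => h (i + j • (1 : Fin (k + 1)))) then 1 else 0

theorem PP_pow (k j : ℕ) : (PP ι k) ^ j = PJ ι k j := by
  induction j with
  | zero =>
    ext f h
    rw [pow_zero, Matrix.one_apply]
    unfold PJ
    simp
  | succ j ih =>
    ext f h
    rw [pow_succ, ih, Matrix.mul_apply]
    unfold PP PJ
    simp only [mul_ite, mul_one, mul_zero]
    rw [Finset.sum_ite_eq', if_pos (Finset.mem_univ _)]
    have : (fun i : Fin (k + 1) => h (i + j • (1 : Fin (k + 1)) + 1)) =
        fun i => h (i + (j + 1) • (1 : Fin (k + 1))) := by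
      funext i
      rw [add_smul, one_smul, add_assoc]
    rw [this]

theorem PP_pow_self (k : ℕ) : (PP ι k) ^ (k + 1) = 1 := by
  rw [PP_pow]
  ext f h
  rw [Matrix.one_apply]
  unfold PJ
  have : (k + 1) • (1 : Fin (k + 1)) = 0 := by
    have := card_nsmul_eq_zero (x := (1 : Fin (k + 1)))
    rwa [Fintype.card_fin] at this
  simp only [this, add_zero]

theorem trace_TT_PP (k : ℕ) (A : Matrix ι ι ℂ) :
    (TT (k + 1) A * PP ι k).trace = (A ^ (k + 1)).trace := by
  have h1 : (TT (k + 1) A * PP ι k).trace =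
      ∑ h : Fin (k + 1) → ι, ∏ i, A (h i) (h (i + 1)) := by
    rw [Matrix.trace]
    refine Finset.sum_congr rfl fun f _ => ?_
    rw [Matrix.diag_apply, Matrix.mul_apply]
    unfold PP TT
    simp only [mul_ite, mul_one, mul_zero]
    rw [Finset.sum_ite_eq', if_pos (Finset.mem_univ _)]
  have h2 := path_sum A k fun a b => A b a
  rw [h1]
  have h3 : ∀ h : Fin (k + 1) → ι, ∏ i, A (h i) (h (i + 1)) =
      (∏ i : Fin k, A (h i.castSucc) (h i.succ)) * A (h (Fin.last k)) (h 0) := by
    intro h
    rw [Fin.prod_univ_castSucc]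
    congr 1
    · refine Finset.prod_congr rfl fun i _ => ?_
      rw [Fin.coeSucc_eq_succ]
    · rw [Fin.last_add_one]
  simp only [h3]
  rw [h2, pow_succ, Matrix.trace]
  simp only [Matrix.diag_apply, Matrix.mul_apply]

end mat

/-- The higher Frobenius-Schur indicators are algebraic integers. -/
theorem fs_integral {G : Type} [Group G] [Fintype G] {V : Type} [AddCommGroup V] [Module ℂ V]
    [FiniteDimensional ℂ V] (ρ : Representation ℂ G V) (k : ℕ) :
    IsIntegral ℤ ((Fintype.card G : ℂ)⁻¹ * ∑ g : G, ρ.character (g ^ (k + 1))) := by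
  let b := Module.finBasis ℂ V
  let A : G → Matrix (Fin (Module.finrank ℂ V)) (Fin (Module.finrank ℂ V)) ℂ := fun g =>
    LinearMap.toMatrix b b (ρ g)
  have hA : ∀ g h, A (g * h) = A g * A h := by
    intro g h
    change LinearMap.toMatrix b b (ρ (g * h)) = _
    rw [map_mul]
    exact LinearMap.toMatrix_mul b (ρ g) (ρ h)
  have hApow : ∀ g, ∀ n, A (g ^ (n + 1)) = A g ^ (n + 1) := by
    intro g n
    induction n with
    | zero => simp
    | succ n ih => rw [pow_succ, hA, ih, ← pow_succ]
  let ι := Fin (Module.finrank ℂ V)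
  let Q : Matrix (Fin (k + 1) → ι) (Fin (k + 1) → ι) ℂ :=
    (Fintype.card G : ℂ)⁻¹ • ∑ g : G, TT (k + 1) (A g)
  have hcard : (Fintype.card G : ℂ) ≠ 0 := by exact_mod_cast Fintype.card_ne_zero
  have hTQ : ∀ g, TT (k + 1) (A g) * Q = Q := by
    intro g
    change TT (k + 1) (A g) * ((Fintype.card G : ℂ)⁻¹ • ∑ g : G, TT (k + 1) (A g)) = _
    rw [mul_smul_comm, Finset.mul_sum]
    change _ = (Fintype.card G : ℂ)⁻¹ • ∑ g : G, TT (k + 1) (A g)
    congr 1
    refine Fintype.sum_equiv (Equiv.mulLeft g) _ _ fun h => ?_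
    rw [← TT_mul, ← hA]; rfl
  have hQQ : Q * Q = Q := by
    conv_lhs => enter [1]; change (Fintype.card G : ℂ)⁻¹ • ∑ g : G, TT (k + 1) (A g)
    rw [smul_mul_assoc, Finset.sum_mul, Finset.sum_congr rfl fun g _ => hTQ g, Finset.sum_const,
      Finset.card_univ, ← Nat.cast_smul_eq_nsmul ℂ, smul_smul, inv_mul_cancel₀ hcard, one_smul]
  have hQP : Commute Q (PP ι k) := by
    change ((Fintype.card G : ℂ)⁻¹ • ∑ g : G, TT (k + 1) (A g)) * PP ι k =
      PP ι k * ((Fintype.card G : ℂ)⁻¹ • ∑ g : G, TT (k + 1) (A g))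
    rw [smul_mul_assoc, mul_smul_comm, Finset.sum_mul, Finset.mul_sum]
    congr 1
    exact Finset.sum_congr rfl fun g _ => TT_PP k (A g)
  have hQpow : ∀ n, Q ^ (n + 1) = Q := by
    intro n
    induction n with
    | zero => rw [zero_add, pow_one]
    | succ n ih => rw [pow_succ, ih, hQQ]
  have hpow1 : (Q * PP ι k) ^ (k + 1) = Q := by
    rw [hQP.mul_pow, hQpow, PP_pow_self, mul_one]
  have hpow2 : (Q * PP ι k) ^ ((k + 1) + (k + 1)) = (Q * PP ι k) ^ (k + 1) := by
    rw [pow_add, hpow1, hQQ]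
  have htr : (Q * PP ι k).trace = (Fintype.card G : ℂ)⁻¹ * ∑ g : G, ρ.character (g ^ (k + 1)) := by
    change (((Fintype.card G : ℂ)⁻¹ • ∑ g : G, TT (k + 1) (A g)) * PP ι k).trace = _
    rw [smul_mul_assoc, Matrix.trace_smul, Finset.sum_mul, Matrix.trace_sum, smul_eq_mul]
    congr 1
    refine Finset.sum_congr rfl fun g _ => ?_
    rw [trace_TT_PP, ← hApow]
    unfold Representation.character
    rw [LinearMap.trace_eq_matrix_trace ℂ b]
  rw [← htr, ← Matrix.trace_toLin'_eq]
  apply trace_integral (Matrix.toLin' (Q * PP ι k)) (a := (k + 1) + (k + 1)) (b := k + 1) (by omega)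
  rw [← Matrix.toLin'_pow, ← Matrix.toLin'_pow, hpow2]

end Pool.Agent.Q99.WM
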