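import Pool.Agent.Q99.CT.Basic

/-!
# Rationality from the Galois action
-/

set_option autoImplicit false
set_option linter.style.haveILetI false

open scoped BigOperators

noncomputable section

namespace Pool.Agent.Q99.WM

open Pool.Agent.Q99.CT Pool.Agent.Helper884

/-- Elements of `ℚ(ζ_N)` fixed by all the automorphisms are rational. -/
theorem rational_of_fixed {N : ℕ} (hN : 0 < N) {ζ : ℂ} (hζ : IsPrimitiveRoot ζ N) (z : cyc ζ)
    (h : ∀ j : ℕ, j.Coprime N → ∀ σ : cyc ζ →ₐ[ℚ] ℂ, σ ⟨ζ, zeta_mem ζ⟩ = ζ ^ j → σ z = z) :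
    ∃ q : ℚ, (z : ℂ) = q := by
  haveI : NeZero N := ⟨hN.ne'⟩
  have hint : IsIntegral ℚ ζ := (hζ.isIntegral hN).tower_top
  haveI : FiniteDimensional ℚ (cyc ζ) := IntermediateField.adjoin.finiteDimensional hint
  haveI : IsCyclotomicExtension {N} ℚ (cyc ζ) := by
    change IsCyclotomicExtension {N} ℚ (IntermediateField.adjoin ℚ {ζ}).toSubalgebra
    rw [IntermediateField.adjoin_simple_toSubalgebra_of_isAlgebraic hint.isAlgebraic]
    exact hζ.adjoin_isCyclotomicExtension ℚ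
  haveI : IsGalois ℚ (cyc ζ) := IsCyclotomicExtension.isGalois {N} ℚ (cyc ζ)
  have h1 : z ∈ (⊥ : IntermediateField ℚ (cyc ζ)) := by
    rw [IsGalois.mem_bot_iff_fixed]
    intro f
    let σ : cyc ζ →ₐ[ℚ] ℂ := (cyc ζ).val.comp f.toAlgHom
    have h2 : IsPrimitiveRoot (σ ⟨ζ, zeta_mem ζ⟩) N := by
      have h3 : IsPrimitiveRoot (⟨ζ, zeta_mem ζ⟩ : cyc ζ) N :=
        IsPrimitiveRoot.of_map_of_injective (f := (cyc ζ).val) (by exact hζ) (cyc ζ).val.injective
      exact h3.map_of_injective σ.injective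
    rw [hζ.isPrimitiveRoot_iff] at h2
    obtain ⟨j, -, hj, hj2⟩ := h2
    have h3 := h j hj σ hj2.symm
    apply Subtype.ext
    exact h3
  rw [IntermediateField.mem_bot] at h1
  obtain ⟨q, hq⟩ := h1
  refine ⟨q, ?_⟩
  rw [← hq]
  rfl

/-- A rational number that is an algebraic integer is an integer. -/
theorem int_of_rat {z : ℂ} (h1 : IsIntegral ℤ z) (h2 : ∃ q : ℚ, z = q) : ∃ a : ℤ, z = a := by
  obtain ⟨q, rfl⟩ := h2
  have h3 : IsIntegral ℤ q := by
    have : (q : ℂ) = algebraMap ℚ ℂ q := rfl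
    rw [this, isIntegral_algebraMap_iff (algebraMap ℚ ℂ).injective] at h1
    exact h1
  obtain ⟨a, ha⟩ := IsIntegrallyClosed.isIntegral_iff.mp h3
  refine ⟨a, ?_⟩
  rw [← ha]
  simp

/-- Character values are algebraic integers. -/
theorem char_integral {G : Type} [Group G] [Finite G] {χ : G → ℂ} (hχ : IC.IsIrrChar χ) (g : G) :
    IsIntegral ℤ (χ g) := by
  obtain ⟨V, _, _, _, ρ, -, rfl⟩ := hχ
  have hN : 0 < orderOf g := orderOf_pos g
  obtain ⟨ζ, hζ⟩ : ∃ ζ : ℂ, IsPrimitiveRoot ζ (orderOf g) :=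
    ⟨_, Complex.isPrimitiveRoot_exp _ hN.ne'⟩
  obtain ⟨m, hm⟩ := char_expand ρ g hN (pow_orderOf_eq_one g) hζ
  have h1 := hm 1
  rw [pow_one] at h1
  rw [h1]
  apply IsIntegral.sum
  intro i _
  apply IsIntegral.mul
  · exact isIntegral_algebraMap (R := ℤ) (A := ℂ) (x := (m i : ℤ)) |> fun h => by simpa using h
  · exact (hζ.isIntegral hN).pow _

end Pool.Agent.Q99.WM
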